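import Pool.Agent.H37.CNR.Stmts

set_option autoImplicit false

namespace Pool.CND

theorem wp1_thm (hRMX : S_RMX) (hTOT : S_TOT) : S_WP1 := by
  intro k L L' G H _ _ _ _ _ _ _ _ ρ ρ' j π P P' e' A hW hA
  obtain ⟨w, hw0, hwfix, hword⟩ := hRMX k L' G P' ρ' π.ker A (by
    intro g
    rw [hA g, MonoidHom.mem_ker])
  obtain ⟨z, hz⟩ := hW.fix w (fun g hg => hwfix g (MonoidHom.mem_ker.2 hg))
  have hz0 : z ≠ 0 := by
    rintro rfl
    apply hw0
    rw [hz, map_zero]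
  have h1 := hW.ord z hz0
  rw [← hz, hword] at h1
  have hd1 : e' ∣ Nat.card A := by
    have : (e' : ℤ) ∣ (Nat.card A : ℤ) := ⟨P.ord z, h1.symm⟩
    exact_mod_cast this
  obtain ⟨u, hu0, hu1⟩ := P.ord_surj
  have h2 := hW.ord u hu0
  rw [hu1, mul_one] at h2
  have hd2 : Nat.card A ∣ e' := by
    have h3 := hTOT k L' G P' ρ' A hW.inj' (fun n hn => ((hA n).1 hn).2) (j u)
      (by rw [Ne, map_eq_zero]; exact hu0)
      (fun n hn => by rw [hW.act, ((hA n).1 hn).1, map_one]; rfl)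
    rw [← h2] at h3
    exact_mod_cast h3
  exact Nat.dvd_antisymm hd1 hd2

end Pool.CND
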